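import Mathlib
import Pool.Agent.H.MP_3abc29_an.A

set_option autoImplicit false

namespace Pool.Agent.Results.MP_3abc29_an.No
open AddCircle Polynomial ComplexConjugate

noncomputable abbrev H2 := lp (fun _ : ℕ => ℂ) 2

def Toep (F : ℂ → ℂ) (T : H2 → H2) : Prop :=
  ∀ i j : ℕ, T (lp.single 2 j 1) i =
    fourierCoeff (fun t : AddCircle (1 : ℝ) => F (fourier 1 t)) ((i : ℤ) - j)

def NotSpectral (V : Type) [NormedAddCommGroup V] [NormedSpace ℂ V] (P : (V → V) → Prop) : Prop :=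
  ∃ (T : V →L[ℂ] V) (r : ℂ[X]) (M : ℝ), P T ∧ (∀ z ∈ spectrum ℂ T, ‖r.eval z‖ ≤ M) ∧ M < ‖aeval T r‖

def InCurve (F : ℂ → ℂ) : Prop :=
  ∃ γ : Circle → ℂ, Continuous γ ∧ Function.Injective γ ∧ ∀ z : ℂ, ‖z‖ = 1 → F z ∈ Set.range γ

theorem result : ∃ p q : ℂ[X], (∀ z : ℂ, ‖z‖ = 1 → q.eval z ≠ 0) ∧
    InCurve (fun z => p.eval z / q.eval z) ∧ NotSpectral H2 (Toep fun z => p.eval z / q.eval z) := by
  refine ⟨X ^ 2 + C (1 / 10), X, fun z hz => ?_,
    ⟨fun z => z + 1 / 10 * conj (z : ℂ), by fun_prop, fun z w h => ?_, fun z hz => ?_⟩,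
    H.MP_3abc29_an.T, H.MP_3abc29_an.r, 1.0125,
    fun i j => ?_, fun z hz => H.MP_3abc29_an.spec hz, H.MP_3abc29_an.big⟩
  · rw [eval_X]; intro h; simp [h] at hz
  · have h1 : (z : ℂ) - w = -(1 / 10) * conj ((z : ℂ) - w) := by
      rw [map_sub]; linear_combination h
    have h2 := congrArg norm h1
    rw [norm_mul, Complex.norm_conj, norm_neg] at h2
    have h3 : ‖(1 / 10 : ℂ)‖ = 1 / 10 := by simp
    rw [h3] at h2
    have h4 : ‖(z : ℂ) - w‖ = 0 := by linarith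
    exact Circle.ext (sub_eq_zero.1 (norm_eq_zero.1 h4))
  · refine ⟨⟨z, by simpa [Submonoid.unitSphere] using hz⟩, ?_⟩
    have z0 : z ≠ 0 := fun h => by simp [h] at hz
    have e1 : z * conj z = 1 := by rw [Complex.mul_conj, Complex.normSq_eq_norm_sq, hz]; simp
    simp only [eval_add, eval_pow, eval_X, eval_C]
    rw [eq_div_iff z0]
    linear_combination (1 / 10 : ℂ) * e1
  · rw [H.MP_3abc29_an.toep, ← H.MP_3abc29_an.coef]
    simp only [eval_add, eval_pow, eval_X, eval_C]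

end Pool.Agent.Results.MP_3abc29_an.No
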